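import Pool.Agent.Lib.MP_ccbbf6_gt.Spray.Acc

/-!
The Riemannian metric of a manifold read in a chart, and its behaviour under a change of charts.
-/

set_option maxSynthPendingDepth 3

namespace Pool.Agent.BL.Spray

open Set Filter Topology Bundle Manifold
open scoped ContDiff

section Chart

variable {E : Type*} [NormedAddCommGroup E] [NormedSpace ℝ E] [FiniteDimensional ℝ E]
  {H : Type*} [TopologicalSpace H] {I : ModelWithCorners ℝ E H}
  {M : Type*} [TopologicalSpace M] [ChartedSpace H M] [IsManifold I ∞ M]
  [RiemannianBundle (fun x : M => TangentSpace I x)]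

variable (I) in
/-- The inner product of two tangent vectors at `x`, written in the coordinates of the chart at `x0`. -/
noncomputable def gin (x0 x : M) (a b : E) : ℝ :=
  @inner ℝ (TangentSpace I x) _ (tangentCoordChange I x0 x x a) (tangentCoordChange I x0 x x b)

variable (I) in
/-- The metric at the point `x` in the coordinates of the chart at `x0`, as a continuous bilinear form. -/
noncomputable def gform (x0 x : M) : E →L[ℝ] E →L[ℝ] ℝ :=
  LinearMap.toContinuousLinearMap
    ((LinearMap.toContinuousLinearMap (𝕜 := ℝ) (E := E) (F' := ℝ)).toLinearMap ∘ₗ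
      (LinearMap.mk₂ ℝ (gin I x0 x)
        (fun a b c => by
          unfold gin
          rw [map_add]
          exact inner_add_left (𝕜 := ℝ) (E := TangentSpace I x) _ _ _)
        (fun r a c => by
          unfold gin
          rw [map_smul]
          exact real_inner_smul_left (F := TangentSpace I x) _ _ _)
        (fun a b c => by
          unfold gin
          rw [map_add]
          exact inner_add_right (𝕜 := ℝ) (E := TangentSpace I x) _ _ _)
        (fun r a c => by
          unfold gin
          rw [map_smul]
          exact real_inner_smul_right (F := TangentSpace I x) _ _ _)))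

lemma gform_apply (x0 x : M) (a b : E) : gform I x0 x a b =
    @inner ℝ (TangentSpace I x) _ (tangentCoordChange I x0 x x a)
      (tangentCoordChange I x0 x x b) := rfl

variable (I) in
/-- The metric read in the chart at `x0`. -/
noncomputable def gch (x0 : M) (y : E) : E →L[ℝ] E →L[ℝ] ℝ := gform I x0 ((extChartAt I x0).symm y)

lemma gform_symm (x0 x : M) (a b : E) : gform I x0 x a b = gform I x0 x b a := by
  rw [gform_apply, gform_apply]
  exact real_inner_comm (F := TangentSpace I x) _ _

lemma gform_nonneg (x0 x : M) (a : E) : 0 ≤ gform I x0 x a a := by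
  rw [gform_apply]
  exact real_inner_self_nonneg (F := TangentSpace I x)

/-- change of charts -/
lemma gform_change {x0 x1 x : M} (h0 : x ∈ (extChartAt I x0).source)
    (h1 : x ∈ (extChartAt I x1).source) (a b : E) :
    gform I x0 x a b = gform I x1 x (tangentCoordChange I x0 x1 x a)
      (tangentCoordChange I x0 x1 x b) := by
  rw [gform_apply, gform_apply]
  rw [tangentCoordChange_comp ⟨⟨h0, h1⟩, mem_extChartAt_source x⟩,
    tangentCoordChange_comp ⟨⟨h0, h1⟩, mem_extChartAt_source x⟩]

/-- in the chart at the point itself -/
lemma gform_self (x : M) (a b : E) : gform I x x a b =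
    @inner ℝ (TangentSpace I x) _ a b := by
  rw [gform_apply, tangentCoordChange_self (mem_extChartAt_source x),
    tangentCoordChange_self (mem_extChartAt_source x)]

lemma gform_pos {x0 x : M} (h0 : x ∈ (extChartAt I x0).source) {a : E} (ha : a ≠ 0) :
    0 < gform I x0 x a a := by
  have h1 : tangentCoordChange I x0 x x a ≠ 0 := by
    intro h
    have h2 : tangentCoordChange I x x0 x (tangentCoordChange I x0 x x a) = a := by
      rw [tangentCoordChange_comp ⟨⟨h0, mem_extChartAt_source x⟩, h0⟩, tangentCoordChange_self h0]
    rw [h, map_zero] at h2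
    exact ha h2.symm
  rw [gform_apply]
  exact real_inner_self_pos (F := TangentSpace I x).2 h1

lemma gform_invertible {x0 x : M} (h0 : x ∈ (extChartAt I x0).source) :
    (gform I x0 x).IsInvertible := isInvertible_of_pos fun _ ha => gform_pos h0 ha

lemma gch_invertible {x0 : M} {y : E} (hy : y ∈ (extChartAt I x0).target) :
    (gch I x0 y).IsInvertible := gform_invertible ((extChartAt I x0).map_target hy)

lemma gch_pos {x0 : M} {y : E} (hy : y ∈ (extChartAt I x0).target) {a : E} (ha : a ≠ 0) :
    0 < gch I x0 y a a := gform_pos ((extChartAt I x0).map_target hy) ha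

lemma gch_symm (x0 : M) (y a b : E) : gch I x0 y a b = gch I x0 y b a := gform_symm _ _ _ _

variable [IsContMDiffRiemannianBundle I ∞ E (fun x : M => TangentSpace I x)]

/-- Smoothness of the metric along the manifold, in fixed coordinates. -/
lemma contMDiffOn_gform (x0 : M) (a b : E) :
    ContMDiffOn I 𝓘(ℝ, ℝ) ∞ (fun x => gform I x0 x a b) (chartAt H x0).source := by
  have hs : ∀ c : E, ContMDiffOn I (I.prod 𝓘(ℝ, E)) ∞
      (fun x : M => (⟨x, (tangentCoordChange I x0 x x c : TangentSpace I x)⟩ :
        TotalSpace E (TangentSpace I : M → Type _))) (chartAt H x0).source := by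
    intro c
    have h1 := (trivializationAt E (TangentSpace I : M → Type _) x0).contMDiffOn_symm
      (IB := I) (n := ∞)
    have h2 : ContMDiffOn I (I.prod 𝓘(ℝ, E)) ∞ (fun x : M => (x, c)) (chartAt H x0).source :=
      contMDiffOn_id.prodMk contMDiffOn_const
    have h3 := h1.comp h2 (fun x hx => by
      rw [mem_preimage, Trivialization.mem_target]
      exact hx)
    refine h3.congr (fun x hx => ?_)
    have hx' : x ∈ (trivializationAt E (TangentSpace I : M → Type _) x0).baseSet := hx
    rw [Function.comp_apply, ← Trivialization.mk_symm _ hx']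
    congr 1
    have h4 : (trivializationAt E (TangentSpace I : M → Type _) x0).symmL ℝ x c =
        tangentCoordChange I x0 x x c := by
      rw [TangentBundle.symmL_trivializationAt_eq_core hx]
      rfl
    rw [Trivialization.symmL_apply _ hx'] at h4
    exact h4.symm
  exact ContMDiffOn.inner_bundle (E := fun x : M => TangentSpace I x) (b := fun x : M => x)
    (v := fun x => tangentCoordChange I x0 x x a) (w := fun x => tangentCoordChange I x0 x x b)
    (hs a) (hs b)

/-- The metric is `C^∞` in every chart. -/
theorem contDiffOn_gch (x0 : M) : ContDiffOn ℝ ∞ (gch I x0) (extChartAt I x0).target := by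
  rw [contDiffOn_clm_apply]
  intro a
  rw [contDiffOn_clm_apply]
  intro b
  have h1 := (contMDiffOn_gform (I := I) x0 a b).comp (contMDiffOn_extChartAt_symm (n := ∞) x0)
    (fun y hy => by
      have := (extChartAt I x0).map_target hy
      rwa [extChartAt_source] at this)
  exact contMDiffOn_iff_contDiffOn.1 h1

end Chart

end Pool.Agent.BL.Spray
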