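import Pool.Agent.Lib.MP_ccbbf6_gt.Flow.Manifold
import Pool.Agent.Lib.MP_ccbbf6_gt.Spray.Chart

/-!
The geodesic vector field (spray) on the tangent bundle of a Riemannian manifold, its expression in every
chart, and its smoothness.
-/

set_option maxSynthPendingDepth 3

namespace Pool.Agent.BL.Spray

open Set Filter Topology Bundle Manifold
open scoped ContDiff

section Field

set_option linter.unusedSectionVars false
set_option linter.unusedVariables false

variable {E : Type*} [NormedAddCommGroup E] [NormedSpace ℝ E] [FiniteDimensional ℝ E]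
  {H : Type*} [TopologicalSpace H] {I : ModelWithCorners ℝ E H} [I.Boundaryless]
  {M : Type*} [TopologicalSpace M] [ChartedSpace H M] [IsManifold I ∞ M]

lemma two_le_infty : (2 : WithTop ℕ∞) ≤ ∞ := ENat.LEInfty.out

variable (I) in
/-- The change of coordinates. -/
noncomputable def tht (x0 x1 : M) : E → E := extChartAt I x1 ∘ (extChartAt I x0).symm

/-- The set where the change of coordinates is defined. -/
lemma isOpen_thtDom (x0 x1 : M) :
    IsOpen ((extChartAt I x0).target ∩ (extChartAt I x0).symm ⁻¹' (extChartAt I x1).source) := by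
  refine (continuousOn_extChartAt_symm x0).isOpen_inter_preimage (isOpen_extChartAt_target x0) ?_
  exact isOpen_extChartAt_source x1

lemma contDiffOn_tht (x0 x1 : M) :
    ContDiffOn ℝ ∞ (tht I x0 x1)
      ((extChartAt I x0).target ∩ (extChartAt I x0).symm ⁻¹' (extChartAt I x1).source) := by
  intro y hy
  have h := contDiffWithinAt_ext_coord_change (I := I) (n := ∞) x1 x0 (y := y) (by
    rw [PartialEquiv.trans_source, PartialEquiv.symm_source]
    exact hy)
  have h2 : range I ∈ 𝓝 y := by
    rw [I.range_eq_univ]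
    exact univ_mem
  exact (h.contDiffAt h2).contDiffWithinAt

lemma contDiffAt_tht {x0 x1 x : M} (h0 : x ∈ (extChartAt I x0).source)
    (h1 : x ∈ (extChartAt I x1).source) :
    ContDiffAt ℝ ∞ (tht I x0 x1) (extChartAt I x0 x) := by
  refine (contDiffOn_tht x0 x1).contDiffAt ((isOpen_thtDom x0 x1).mem_nhds ?_)
  exact ⟨(extChartAt I x0).map_source h0, by
    rw [mem_preimage, (extChartAt I x0).left_inv h0]
    exact h1⟩

lemma hasFDerivAt_tht {x0 x1 x : M} (h0 : x ∈ (extChartAt I x0).source)
    (h1 : x ∈ (extChartAt I x1).source) :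
    HasFDerivAt (tht I x0 x1) (tangentCoordChange I x0 x1 x) (extChartAt I x0 x) := by
  have h := hasFDerivWithinAt_tangentCoordChange (I := I) (x := x0) (y := x1) (z := x) ⟨h0, h1⟩
  rwa [I.range_eq_univ, hasFDerivWithinAt_univ] at h

lemma fderiv_tht {x0 x1 x : M} (h0 : x ∈ (extChartAt I x0).source)
    (h1 : x ∈ (extChartAt I x1).source) :
    fderiv ℝ (tht I x0 x1) (extChartAt I x0 x) = tangentCoordChange I x0 x1 x :=
  (hasFDerivAt_tht h0 h1).fderiv

lemma fderiv_tht' {x0 x1 : M} {y : E} (hy : y ∈ (extChartAt I x0).target)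
    (h1 : (extChartAt I x0).symm y ∈ (extChartAt I x1).source) :
    fderiv ℝ (tht I x0 x1) y = tangentCoordChange I x0 x1 ((extChartAt I x0).symm y) := by
  have := fderiv_tht ((extChartAt I x0).map_target hy) h1
  rwa [(extChartAt I x0).right_inv hy] at this

lemma tcc_surjective {x0 x1 x : M} (h0 : x ∈ (extChartAt I x0).source)
    (h1 : x ∈ (extChartAt I x1).source) :
    Function.Surjective (tangentCoordChange I x0 x1 x) := by
  intro v
  refine ⟨tangentCoordChange I x1 x0 x v, ?_⟩
  rw [tangentCoordChange_comp ⟨⟨h1, h0⟩, h1⟩, tangentCoordChange_self h1]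

/-- The charts of the tangent bundle. -/
lemma ext_tangent_apply (z0 z : TangentBundle I M) : extChartAt I.tangent z0 z =
    (extChartAt I z0.1 z.1, tangentCoordChange I z.1 z0.1 z.1 z.2) := rfl

lemma ext_tangent_symm_apply (z0 : TangentBundle I M) (y w : E)
    (hy : y ∈ (extChartAt I z0.1).target) :
    (extChartAt I.tangent z0).symm (y, w) =
    ⟨(extChartAt I z0.1).symm y, tangentCoordChange I z0.1 ((extChartAt I z0.1).symm y)
      ((extChartAt I z0.1).symm y) w⟩ := by
  rfl

lemma mem_ext_tangent_source {z0 z : TangentBundle I M} :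
    z ∈ (extChartAt I.tangent z0).source ↔ z.1 ∈ (extChartAt I z0.1).source := by
  rw [extChartAt_source, extChartAt_source, TangentBundle.mem_chart_source_iff]

lemma mem_ext_tangent_target {z0 : TangentBundle I M} {y w : E} :
    (y, w) ∈ (extChartAt I.tangent z0).target ↔ y ∈ (extChartAt I z0.1).target := by
  rw [FiberBundle.extChartAt_target]
  constructor
  · intro h
    exact h.1.1
  · intro h
    refine ⟨⟨h, ?_⟩, mem_univ _⟩
    have := (extChartAt I z0.1).map_target h
    rw [extChartAt_source] at this
    exact this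

/-- The change of charts of the tangent bundle and its derivative. -/
lemma tcc_tangent {z0 z : TangentBundle I M} (hz : z.1 ∈ (extChartAt I z0.1).source) (b c : E) :
    tangentCoordChange I.tangent z z0 z (b, c) =
      (tangentCoordChange I z.1 z0.1 z.1 b,
        fderiv ℝ (fderiv ℝ (tht I z.1 z0.1)) (extChartAt I z.1 z.1) b z.2 +
          tangentCoordChange I z.1 z0.1 z.1 c) := by
  have hz1 : z ∈ (extChartAt I.tangent z).source ∩ (extChartAt I.tangent z0).source :=
    ⟨mem_extChartAt_source z, mem_ext_tangent_source.2 hz⟩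
  have h1 := hasFDerivWithinAt_tangentCoordChange (I := I.tangent) (x := z) (y := z0) (z := z) hz1
  rw [ModelWithCorners.range_eq_univ, hasFDerivWithinAt_univ] at h1
  have hs : z.1 ∈ (extChartAt I z.1).source := mem_extChartAt_source z.1
  obtain ⟨y0, hy0⟩ : ∃ y0 : E, y0 = extChartAt I z.1 z.1 := ⟨_, rfl⟩
  obtain ⟨w0, hw0⟩ : ∃ w0 : E, w0 = z.2 := ⟨_, rfl⟩
  have hself : extChartAt I.tangent z z = ((y0, w0) : E × E) := by
    rw [ext_tangent_apply, tangentCoordChange_self hs, hy0, hw0]
  rw [hself] at h1
  have hgoal : tangentCoordChange I.tangent z z0 z (b, c) =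
      (tangentCoordChange I z.1 z0.1 z.1 b,
        fderiv ℝ (fderiv ℝ (tht I z.1 z0.1)) y0 b w0 + tangentCoordChange I z.1 z0.1 z.1 c) := by
    -- the transition map
    have h2 : (extChartAt I.tangent z0 ∘ (extChartAt I.tangent z).symm) =ᶠ[𝓝 ((y0, w0) : E × E)]
        fun p : E × E => (tht I z.1 z0.1 p.1, fderiv ℝ (tht I z.1 z0.1) p.1 p.2) := by
      have h3 : ∀ᶠ y in 𝓝 y0, y ∈ (extChartAt I z.1).target ∩
          (extChartAt I z.1).symm ⁻¹' (extChartAt I z0.1).source := by
        rw [hy0]
        refine (isOpen_thtDom z.1 z0.1).mem_nhds ⟨(extChartAt I z.1).map_source hs, ?_⟩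
        rw [mem_preimage, (extChartAt I z.1).left_inv hs]
        exact hz
      have h4 : ∀ᶠ p : E × E in 𝓝 (y0, w0), p.1 ∈ (extChartAt I z.1).target ∩
          (extChartAt I z.1).symm ⁻¹' (extChartAt I z0.1).source :=
        (continuous_fst.tendsto (y0, w0)).eventually h3
      filter_upwards [h4] with p hp
      obtain ⟨y, w⟩ := p
      simp only at hp
      obtain ⟨hp1, hp2⟩ := hp
      rw [Function.comp_apply, ext_tangent_symm_apply _ _ _ hp1, ext_tangent_apply]
      have hx : (extChartAt I z.1).symm y ∈ (extChartAt I z.1).source :=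
        (extChartAt I z.1).map_target hp1
      have h11 := tangentCoordChange_comp (I := I) (w := z.1) (x := (extChartAt I z.1).symm y)
        (y := z0.1) (z := (extChartAt I z.1).symm y) (v := w)
        ⟨⟨hx, mem_extChartAt_source _⟩, hp2⟩
      refine Prod.ext rfl ?_
      show tangentCoordChange I ((extChartAt I z.1).symm y) z0.1 ((extChartAt I z.1).symm y)
        (tangentCoordChange I z.1 ((extChartAt I z.1).symm y) ((extChartAt I z.1).symm y) w) =
        fderiv ℝ (tht I z.1 z0.1) y w
      rw [h11, fderiv_tht' hp1 hp2]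
    -- its derivative
    have hC : ContDiffAt ℝ ∞ (tht I z.1 z0.1) y0 := by
      rw [hy0]
      exact contDiffAt_tht hs hz
    have hF : HasFDerivAt (tht I z.1 z0.1) (tangentCoordChange I z.1 z0.1 z.1) y0 := by
      rw [hy0]
      exact hasFDerivAt_tht hs hz
    have hd2 : DifferentiableAt ℝ (fderiv ℝ (tht I z.1 z0.1)) y0 := by
      have h : ContDiffAt ℝ 1 (fderiv ℝ (tht I z.1 z0.1)) y0 :=
        (hC.of_le two_le_infty).fderiv_right (m := 1) (by norm_num)
      exact h.differentiableAt one_ne_zero
    have h5 : HasFDerivAt (fun p : E × E => tht I z.1 z0.1 p.1)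
        ((tangentCoordChange I z.1 z0.1 z.1).comp (ContinuousLinearMap.fst ℝ E E)) (y0, w0) :=
      HasFDerivAt.comp (y0, w0) (g := tht I z.1 z0.1) hF hasFDerivAt_fst
    have h6 : HasFDerivAt (fun p : E × E => fderiv ℝ (tht I z.1 z0.1) p.1)
        ((fderiv ℝ (fderiv ℝ (tht I z.1 z0.1)) y0).comp (ContinuousLinearMap.fst ℝ E E))
        (y0, w0) :=
      HasFDerivAt.comp (y0, w0) (g := fderiv ℝ (tht I z.1 z0.1)) hd2.hasFDerivAt hasFDerivAt_fst
    have h7 := h6.clm_apply (hasFDerivAt_snd (𝕜 := ℝ) (p := ((y0, w0) : E × E)))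
    have h8 := (h5.prodMk h7).congr_of_eventuallyEq h2
    have h9 := h1.unique h8
    have h10 := congrArg (fun L : E × E →L[ℝ] E × E => L (b, c)) h9
    simp only at h10
    rw [h10]
    simp only [ContinuousLinearMap.prod_apply, ContinuousLinearMap.comp_apply,
      ContinuousLinearMap.coe_fst', ContinuousLinearMap.coe_snd', add_apply,
      ContinuousLinearMap.flip_apply, hF.fderiv]
    rw [add_comm]
  rw [hgoal, hy0, hw0]

variable [RiemannianBundle (fun x : M => TangentSpace I x)]

/-- The metrics read in two charts. -/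
lemma gch_change {x0 x1 : M} {y : E} (hy : y ∈ (extChartAt I x0).target)
    (h1 : (extChartAt I x0).symm y ∈ (extChartAt I x1).source) (a b : E) :
    gch I x0 y a b = gch I x1 (tht I x0 x1 y) (fderiv ℝ (tht I x0 x1) y a)
      (fderiv ℝ (tht I x0 x1) y b) := by
  unfold gch
  rw [fderiv_tht' hy h1]
  have h2 : (extChartAt I x1).symm (tht I x0 x1 y) = (extChartAt I x0).symm y :=
    (extChartAt I x1).left_inv h1
  rw [h2, gform_change ((extChartAt I x0).map_target hy) h1]

variable [IsContMDiffRiemannianBundle I ∞ E (fun x : M => TangentSpace I x)]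

lemma differentiableAt_gch {x0 : M} {y : E} (hy : y ∈ (extChartAt I x0).target) :
    DifferentiableAt ℝ (gch I x0) y :=
  ((contDiffOn_gch x0).contDiffAt ((isOpen_extChartAt_target x0).mem_nhds hy)).differentiableAt
    (by simp)

/-- **Covariance of the acceleration**. -/
lemma acc_change {x0 x1 x : M} (h0 : x ∈ (extChartAt I x0).source)
    (h1 : x ∈ (extChartAt I x1).source) (w : E) :
    acc (gch I x1) (extChartAt I x1 x) (tangentCoordChange I x0 x1 x w) =
      fderiv ℝ (fderiv ℝ (tht I x0 x1)) (extChartAt I x0 x) w w +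
        tangentCoordChange I x0 x1 x (acc (gch I x0) (extChartAt I x0 x) w) := by
  have hy : extChartAt I x0 x ∈ (extChartAt I x0).target := (extChartAt I x0).map_source h0
  have hθ : tht I x0 x1 (extChartAt I x0 x) = extChartAt I x1 x := by
    unfold tht
    rw [Function.comp_apply, (extChartAt I x0).left_inv h0]
  have hdom : extChartAt I x0 x ∈ (extChartAt I x0).target ∩
      (extChartAt I x0).symm ⁻¹' (extChartAt I x1).source :=
    ⟨hy, by rw [mem_preimage, (extChartAt I x0).left_inv h0]; exact h1⟩
  have key := acc_pullback (G0 := gch I x0) (G1 := gch I x1) (θ := tht I x0 x1)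
    (y := extChartAt I x0 x)
    ((contDiffAt_tht h0 h1).of_le two_le_infty)
    (by rw [hθ]; exact differentiableAt_gch ((extChartAt I x1).map_source h1))
    (differentiableAt_gch hy)
    (by
      filter_upwards [(isOpen_thtDom x0 x1).mem_nhds hdom] with z hz a b
      exact gch_change hz.1 hz.2 a b)
    (fun a b => gch_symm _ _ _ _)
    (gch_invertible hy)
    (by rw [hθ]; exact gch_invertible ((extChartAt I x1).map_source h1))
    (by rw [fderiv_tht h0 h1]; exact tcc_surjective h0 h1) w
  rw [hθ, fderiv_tht h0 h1] at key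
  exact key

variable (I M) in
/-- **The geodesic vector field** on the tangent bundle. -/
noncomputable def spray (z : TangentBundle I M) : TangentSpace I.tangent z :=
  ((z.2, acc (gch I z.1) (extChartAt I z.1 z.1) z.2) : E × E)

/-- The geodesic vector field in the coordinates of an arbitrary chart. -/
theorem tcc_spray {z0 z : TangentBundle I M} (hz : z.1 ∈ (extChartAt I z0.1).source) :
    tangentCoordChange I.tangent z z0 z (spray I M z) =
      ((extChartAt I.tangent z0 z).2,
        acc (gch I z0.1) (extChartAt I.tangent z0 z).1 (extChartAt I.tangent z0 z).2) := by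
  have h1 : tangentCoordChange I.tangent z z0 z (spray I M z) =
      tangentCoordChange I.tangent z z0 z
        ((z.2, acc (gch I z.1) (extChartAt I z.1 z.1) z.2) : E × E) := rfl
  rw [h1, tcc_tangent hz, ext_tangent_apply]
  simp only
  rw [acc_change (mem_extChartAt_source z.1) hz]

/-- Local representative of the geodesic vector field. -/
theorem vloc_spray (z0 : TangentBundle I M) {y w : E} (hy : y ∈ (extChartAt I z0.1).target) :
    Flow.vloc I.tangent (spray I M) z0 (y, w) = (w, acc (gch I z0.1) y w) := by
  have ht : (y, w) ∈ (extChartAt I.tangent z0).target := mem_ext_tangent_target.2 hy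
  unfold Flow.vloc
  rw [tcc_spray (mem_ext_tangent_source.1 ((extChartAt I.tangent z0).map_target ht)),
    (extChartAt I.tangent z0).right_inv ht]

/-- The function in the chart. -/
lemma contDiffOn_sprayLoc (x0 : M) :
    ContDiffOn ℝ ∞ (fun p : E × E => (p.2, acc (gch I x0) p.1 p.2))
      ((extChartAt I x0).target ×ˢ univ) :=
  contDiffOn_snd.prodMk (contDiffOn_acc (isOpen_extChartAt_target x0) (contDiffOn_gch x0)
    (fun _ hy => gch_invertible hy))

/-- **The geodesic vector field is smooth.** -/
theorem contMDiff_spray : ContMDiff I.tangent I.tangent.tangent ∞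
    (fun z : TangentBundle I M => (⟨z, spray I M z⟩ : TangentBundle I.tangent (TangentBundle I M))) := by
  intro z0
  rw [contMDiffAt_section]
  have h1 : ContMDiffAt I.tangent 𝓘(ℝ, E × E) ∞
      (fun z : TangentBundle I M => (fun p : E × E => (p.2, acc (gch I z0.1) p.1 p.2))
        (extChartAt I.tangent z0 z)) z0 := by
    have h2 : ContDiffAt ℝ ∞ (fun p : E × E => (p.2, acc (gch I z0.1) p.1 p.2))
        (extChartAt I.tangent z0 z0) := by
      refine (contDiffOn_sprayLoc z0.1).contDiffAt
        (((isOpen_extChartAt_target z0.1).prod isOpen_univ).mem_nhds ⟨?_, mem_univ _⟩)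
      rw [ext_tangent_apply]
      exact (extChartAt I z0.1).map_source (mem_extChartAt_source z0.1)
    exact ContMDiffAt.comp z0 h2.contMDiffAt contMDiffAt_extChartAt
  refine h1.congr_of_eventuallyEq ?_
  filter_upwards [extChartAt_source_mem_nhds (I := I.tangent) z0] with z hz
  exact tcc_spray (mem_ext_tangent_source.1 hz)

end Field

end Pool.Agent.BL.Spray
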