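import Pool.Agent.Lib.MP_ccbbf6_gt.ML

/-!
The acceleration of geodesics of a metric `G` on an open subset of a vector space, its smoothness and its
behaviour under a change of coordinates.
-/

set_option maxSynthPendingDepth 3

namespace Pool.Agent.BL.Spray

open Set Filter Topology
open scoped ContDiff

section Acc

variable {E : Type*} [NormedAddCommGroup E] [NormedSpace ℝ E]

/-- The force `u ↦ DG(y)(u)(w,w)/2 - DG(y)(w)(w,u)`. -/
noncomputable def frc (G : E → E →L[ℝ] E →L[ℝ] ℝ) (y w : E) : E →L[ℝ] ℝ :=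
  (1 / 2 : ℝ) • ((fderiv ℝ G y).flip w).flip w - fderiv ℝ G y w w

/-- The acceleration. -/
noncomputable def acc (G : E → E →L[ℝ] E →L[ℝ] ℝ) (y w : E) : E := (G y).inverse (frc G y w)

lemma frc_apply (G : E → E →L[ℝ] E →L[ℝ] ℝ) (y w u : E) :
    frc G y w u = 1 / 2 * fderiv ℝ G y u w w - fderiv ℝ G y w w u := by
  simp [frc]

lemma acc_spec {G : E → E →L[ℝ] E →L[ℝ] ℝ} {y : E} (h : (G y).IsInvertible) (w u : E) :
    G y (acc G y w) u = 1 / 2 * fderiv ℝ G y u w w - fderiv ℝ G y w w u := by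
  unfold acc
  rw [h.self_apply_inverse, frc_apply]

lemma acc_unique {G : E → E →L[ℝ] E →L[ℝ] ℝ} {y : E} (h : (G y).IsInvertible) {w a : E}
    (ha : ∀ u, G y a u = 1 / 2 * fderiv ℝ G y u w w - fderiv ℝ G y w w u) : a = acc G y w := by
  refine h.injective ?_
  ext u
  rw [acc_spec h, ha]

lemma frc_smul (G : E → E →L[ℝ] E →L[ℝ] ℝ) (y w : E) (c : ℝ) :
    frc G y (c • w) = (c ^ 2) • frc G y w := by
  ext u
  rw [smul_apply, frc_apply, frc_apply]
  simp
  ring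

lemma acc_smul (G : E → E →L[ℝ] E →L[ℝ] ℝ) (y w : E) (c : ℝ) :
    acc G y (c • w) = (c ^ 2) • acc G y w := by
  unfold acc
  rw [frc_smul, map_smul]

/-- A positive form on a finite dimensional space is invertible. -/
lemma isInvertible_of_pos [FiniteDimensional ℝ E] {B : E →L[ℝ] E →L[ℝ] ℝ}
    (h : ∀ a, a ≠ 0 → 0 < B a a) : B.IsInvertible := by
  have hinj : Function.Injective (B : E →ₗ[ℝ] (E →L[ℝ] ℝ)) := by
    rw [← LinearMap.ker_eq_bot, LinearMap.ker_eq_bot']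
    intro a ha
    by_contra hne
    have := h a hne
    have h2 : B a = 0 := ha
    rw [h2] at this
    simp at this
  have hdim : Module.finrank ℝ E = Module.finrank ℝ (E →L[ℝ] ℝ) := by
    rw [← (LinearMap.toContinuousLinearMap (𝕜 := ℝ) (E := E) (F' := ℝ)).finrank_eq]
    exact (Subspace.dual_finrank_eq (K := ℝ) (V := E)).symm
  let e : E ≃ₗ[ℝ] (E →L[ℝ] ℝ) := LinearEquiv.ofInjectiveOfFinrankEq _ hinj hdim
  refine ⟨e.toContinuousLinearEquiv, ?_⟩
  ext a b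
  rfl

/-- Smoothness of the acceleration. -/
theorem contDiffOn_acc [CompleteSpace E] {G : E → E →L[ℝ] E →L[ℝ] ℝ} {U : Set E} (hU : IsOpen U)
    (hG : ContDiffOn ℝ ∞ G U) (hinv : ∀ y ∈ U, (G y).IsInvertible) :
    ContDiffOn ℝ ∞ (fun p : E × E => acc G p.1 p.2) (U ×ˢ univ) := by
  rintro ⟨y, w⟩ ⟨hy, -⟩
  refine ContDiffAt.contDiffWithinAt ?_
  simp only at hy
  have hGy : ContDiffAt ℝ ∞ G y := hG.contDiffAt (hU.mem_nhds hy)
  have h1 : ContDiffAt ℝ ∞ (fun p : E × E => (G p.1).inverse) (y, w) := by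
    have h2 : ContDiffAt ℝ ∞ (fun p : E × E => G p.1) (y, w) :=
      ContDiffAt.comp (y, w) hGy contDiffAt_fst
    exact ContDiffAt.comp (y, w) (g := ContinuousLinearMap.inverse)
      (hinv y hy).contDiffAt_map_inverse h2
  have hd : ContDiffAt ℝ ∞ (fun p : E × E => fderiv ℝ G p.1) (y, w) := by
    have h3 : ContDiffAt ℝ ∞ (fderiv ℝ G) y := hGy.fderiv_right (m := ∞) (by simp)
    exact ContDiffAt.comp (y, w) h3 contDiffAt_fst
  have h4 : ContDiffAt ℝ ∞ (fun p : E × E => frc G p.1 p.2) (y, w) := by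
    unfold frc
    refine ContDiffAt.sub (ContDiffAt.const_smul _ ?_) ?_
    · have h5 : ContDiffAt ℝ ∞ (fun p : E × E => (fderiv ℝ G p.1).flip) (y, w) :=
        ContDiffAt.comp (y, w) (ContinuousLinearMap.flipₗᵢ ℝ E E (E →L[ℝ] ℝ)).contDiff.contDiffAt hd
      have h6 : ContDiffAt ℝ ∞ (fun p : E × E => (fderiv ℝ G p.1).flip p.2) (y, w) :=
        h5.clm_apply contDiffAt_snd
      have h7 : ContDiffAt ℝ ∞ (fun p : E × E => ((fderiv ℝ G p.1).flip p.2).flip) (y, w) :=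
        ContDiffAt.comp (y, w) (ContinuousLinearMap.flipₗᵢ ℝ E E ℝ).contDiff.contDiffAt h6
      exact h7.clm_apply contDiffAt_snd
    · exact (hd.clm_apply contDiffAt_snd).clm_apply contDiffAt_snd
  exact h1.clm_apply h4

/-- derivative of a pulled back metric -/
lemma fderiv_pullback {G0 G1 : E → E →L[ℝ] E →L[ℝ] ℝ} {θ : E → E} {y : E}
    (hθ : ContDiffAt ℝ 2 θ y) (hG1 : DifferentiableAt ℝ G1 (θ y)) (hG0 : DifferentiableAt ℝ G0 y)
    (hpull : ∀ᶠ z in 𝓝 y, ∀ a b, G0 z a b = G1 (θ z) (fderiv ℝ θ z a) (fderiv ℝ θ z b))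
    (w b c : E) :
    fderiv ℝ G0 y w b c = fderiv ℝ G1 (θ y) (fderiv ℝ θ y w) (fderiv ℝ θ y b) (fderiv ℝ θ y c) +
      G1 (θ y) (fderiv ℝ (fderiv ℝ θ) y w b) (fderiv ℝ θ y c) +
      G1 (θ y) (fderiv ℝ θ y b) (fderiv ℝ (fderiv ℝ θ) y w c) := by
  have hT : DifferentiableAt ℝ (fderiv ℝ θ) y := by
    have h : ContDiffAt ℝ 1 (fderiv ℝ θ) y := hθ.fderiv_right (m := 1) (by norm_num)
    exact h.differentiableAt one_ne_zero
  have hθd : DifferentiableAt ℝ θ y := hθ.differentiableAt two_ne_zero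
  have h1 : HasFDerivAt (fun z => G1 (θ z)) ((fderiv ℝ G1 (θ y)).comp (fderiv ℝ θ y)) y :=
    HasFDerivAt.comp y hG1.hasFDerivAt hθd.hasFDerivAt
  have h2 : ∀ b : E, HasFDerivAt (fun z => fderiv ℝ θ z b) ((fderiv ℝ (fderiv ℝ θ) y).flip b) y := by
    intro b
    have := hT.hasFDerivAt.clm_apply (hasFDerivAt_const b y)
    refine this.congr_fderiv ?_
    ext w
    simp
  have h3 := (h1.clm_apply (h2 b)).clm_apply (h2 c)
  have h4 : HasFDerivAt (fun z => G0 z b c)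
      ((((fderiv ℝ G0 y).flip b).flip c)) y := by
    have := (hG0.hasFDerivAt.clm_apply (hasFDerivAt_const b y)).clm_apply (hasFDerivAt_const c y)
    refine this.congr_fderiv ?_
    ext w
    simp
  have h5 : (fun z => G0 z b c) =ᶠ[𝓝 y] fun z => G1 (θ z) (fderiv ℝ θ z b) (fderiv ℝ θ z c) := by
    filter_upwards [hpull] with z hz
    exact hz b c
  have h6 := (h4.unique (h3.congr_of_eventuallyEq h5))
  have h7 := congrArg (fun L : E →L[ℝ] ℝ => L w) h6
  simp only [ContinuousLinearMap.flip_apply, add_apply,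
    ContinuousLinearMap.comp_apply] at h7
  rw [h7]
  ring

/-- **Covariance of the acceleration** under a change of coordinates. -/
theorem acc_pullback {G0 G1 : E → E →L[ℝ] E →L[ℝ] ℝ} {θ : E → E} {y : E}
    (hθ : ContDiffAt ℝ 2 θ y) (hG1 : DifferentiableAt ℝ G1 (θ y)) (hG0 : DifferentiableAt ℝ G0 y)
    (hpull : ∀ᶠ z in 𝓝 y, ∀ a b, G0 z a b = G1 (θ z) (fderiv ℝ θ z a) (fderiv ℝ θ z b))
    (hsymm : ∀ a b, G1 (θ y) a b = G1 (θ y) b a)
    (hi0 : (G0 y).IsInvertible) (hi1 : (G1 (θ y)).IsInvertible)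
    (hsurj : Function.Surjective (fderiv ℝ θ y)) (w : E) :
    acc G1 (θ y) (fderiv ℝ θ y w) =
      fderiv ℝ (fderiv ℝ θ) y w w + fderiv ℝ θ y (acc G0 y w) := by
  symm
  refine acc_unique hi1 (fun u' => ?_)
  obtain ⟨u, rfl⟩ := hsurj u'
  have hp := hpull.self_of_nhds
  have hsnd : ∀ a b, fderiv ℝ (fderiv ℝ θ) y a b = fderiv ℝ (fderiv ℝ θ) y b a :=
    fun a b => (hθ.isSymmSndFDerivAt (by simp)) a b
  have h1 := acc_spec hi0 w u
  rw [hp, fderiv_pullback hθ hG1 hG0 hpull, fderiv_pullback hθ hG1 hG0 hpull] at h1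
  rw [map_add, add_apply, h1]
  rw [hsymm (fderiv ℝ (fderiv ℝ θ) y u w) (fderiv ℝ θ y w), hsnd w u]
  ring

end Acc

end Pool.Agent.BL.Spray
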